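import Pool.Agent.H73.GWT.Stmts

/-!
# Board `gwt`, row SMW: the sum over the masks
-/

set_option autoImplicit false

open Classical

namespace GWT

section code

variable {ι G V : Type*} [Fintype ι] [Group G] [MulAction G V] (C : Code ι G V)

theorem SMW (h1 : MVAStmt C) (h2 : MUNStmt C) (h3 : MWTStmt C)
    (h4 : ENCStmt ι (List (List ι) × List ι) (Msg ι)) : SMWStmt C := by
  intro w n 𝓓 h𝓓
  have hM : (0 : ℝ) < (C.M : ℝ) ^ 3 := by
    have h5 := C.M_big
    have h6 : (0 : ℝ) < (C.M : ℝ) := by
      exact_mod_cast (by omega : 0 < C.M)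
    positivity
  have h := h4 (fun l => mask (St C w l)) (fun x l => msg C w x l)
    (fun D => ((C.M : ℝ) ^ 3) ^ D.1.length) (fun μ => omg ((C.M : ℝ) ^ 3) μ)
    (fun μ => Val (6 * C.Λ) μ) (16 * (C.M : ℝ) ^ 3)
    (fun D => (pow_pos hM _).le) ?_ (by positivity) (fun x l => (h1 w x l).1)
    (fun x x' l l' => h2 w x x' l l') ?_ h3 n 𝓓 h𝓓
  · have h7 : mask (St C w ([] : List ι)) = ([], []) := by
      simp only [mask, St, List.map_nil]
    simp only [h7, List.length_nil, pow_zero, mul_one] at h
    exact h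
  · intro μ
    cases μ with
    | good => exact hM.le
    | bad lb lf e => exact pow_nonneg (inv_nonneg.2 hM.le) _
  · intro x l
    have h8 := (h1 w x l).2 _ hM
    simp only [mask, List.length_map]
    exact h8

end code

end GWT
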